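import Mathlib

/-!
# MP_03f9bf_an : the Ky Fan norm inequality for partial traces fails

For Hermitian `A, B` put `S_A = A ⊗ I + I ⊗ A`, `D_B = B ⊗ I - I ⊗ B`,
`L(A,B) = Tr_1 (S_A D_B)` and `R(B) = Tr_1 (D_B)`.  We disprove
`‖L(A,B)‖_(k) ≤ 2 σ_1(A) ‖R(B)‖_(k)`: for `n = 15` and `k = 15` (the trace norm) there are
real symmetric matrices `A, B` violating it.
-/

open Matrix
open scoped Kronecker

namespace Pool.Agent.Results.MP_03f9bf_an.KyFanFails

/-- The `i`-th singular value (zero-indexed, decreasing order) of a square complex matrix. -/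
noncomputable def sv {n : ℕ} (M : Matrix (Fin n) (Fin n) ℂ) (i : ℕ) : ℝ :=
  (Matrix.toEuclideanLin M).singularValues i

/-- The Ky Fan `k`-norm: the sum of the `k` largest singular values. -/
noncomputable def kyFan {n : ℕ} (k : ℕ) (M : Matrix (Fin n) (Fin n) ℂ) : ℝ :=
  ∑ i ∈ Finset.range k, sv M i

/-- Partial trace over the first tensor factor. -/
def tr1 {n : ℕ} (M : Matrix (Fin n × Fin n) (Fin n × Fin n) ℂ) : Matrix (Fin n) (Fin n) ℂ :=
  Matrix.of fun j l => ∑ i, M (i, j) (i, l)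

/-- `S_A = A ⊗ I + I ⊗ A`. -/
def SA {n : ℕ} (A : Matrix (Fin n) (Fin n) ℂ) : Matrix (Fin n × Fin n) (Fin n × Fin n) ℂ :=
  A ⊗ₖ (1 : Matrix (Fin n) (Fin n) ℂ) + (1 : Matrix (Fin n) (Fin n) ℂ) ⊗ₖ A

/-- `D_B = B ⊗ I - I ⊗ B`. -/
def DB {n : ℕ} (B : Matrix (Fin n) (Fin n) ℂ) : Matrix (Fin n × Fin n) (Fin n × Fin n) ℂ :=
  B ⊗ₖ (1 : Matrix (Fin n) (Fin n) ℂ) - (1 : Matrix (Fin n) (Fin n) ℂ) ⊗ₖ B

/-- `L(A,B) = Tr_1 (S_A D_B)`. -/
def L {n : ℕ} (A B : Matrix (Fin n) (Fin n) ℂ) : Matrix (Fin n) (Fin n) ℂ := tr1 (SA A * DB B)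

/-- `R(B) = Tr_1 (D_B)`. -/
def R {n : ℕ} (B : Matrix (Fin n) (Fin n) ℂ) : Matrix (Fin n) (Fin n) ℂ := tr1 (DB B)

lemma tr1_kron {n : ℕ} (X Y : Matrix (Fin n) (Fin n) ℂ) : tr1 (X ⊗ₖ Y) = X.trace • Y := by
  ext j l
  simp [tr1, Matrix.trace, Finset.sum_mul]

lemma tr1_add {n : ℕ} (X Y : Matrix (Fin n × Fin n) (Fin n × Fin n) ℂ) :
    tr1 (X + Y) = tr1 X + tr1 Y := by
  ext j l
  simp [tr1, Finset.sum_add_distrib]

lemma tr1_sub {n : ℕ} (X Y : Matrix (Fin n × Fin n) (Fin n × Fin n) ℂ) :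
    tr1 (X - Y) = tr1 X - tr1 Y := by
  ext j l
  simp [tr1, Finset.sum_sub_distrib]

lemma L_eq {n : ℕ} (A B : Matrix (Fin n) (Fin n) ℂ) :
    L A B = (A * B).trace • (1 : Matrix (Fin n) (Fin n) ℂ) - A.trace • B + B.trace • A
      - (n : ℂ) • (A * B) := by
  unfold L SA DB
  have h : (A ⊗ₖ (1 : Matrix (Fin n) (Fin n) ℂ) + (1 : Matrix (Fin n) (Fin n) ℂ) ⊗ₖ A) *
      (B ⊗ₖ (1 : Matrix (Fin n) (Fin n) ℂ) - (1 : Matrix (Fin n) (Fin n) ℂ) ⊗ₖ B)
      = ((A * B) ⊗ₖ (1 : Matrix (Fin n) (Fin n) ℂ) - A ⊗ₖ B) +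
        (B ⊗ₖ A - (1 : Matrix (Fin n) (Fin n) ℂ) ⊗ₖ (A * B)) := by
    rw [add_mul, mul_sub, mul_sub, ← mul_kronecker_mul, ← mul_kronecker_mul,
      ← mul_kronecker_mul, ← mul_kronecker_mul]
    simp
  rw [h, tr1_add, tr1_sub, tr1_sub, tr1_kron, tr1_kron, tr1_kron, tr1_kron]
  simp only [Matrix.trace_one, Fintype.card_fin]
  abel

lemma R_eq {n : ℕ} (B : Matrix (Fin n) (Fin n) ℂ) :
    R B = B.trace • (1 : Matrix (Fin n) (Fin n) ℂ) - (n : ℂ) • B := by
  unfold R DB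
  rw [tr1_sub, tr1_kron, tr1_kron]
  simp

section sing

variable {E : Type*} [NormedAddCommGroup E] [InnerProductSpace ℂ E] [FiniteDimensional ℂ E]

lemma norm_apply_basis (T : E →ₗ[ℂ] E) {n : ℕ} (hn : Module.finrank ℂ E = n) (i : Fin n) :
    ‖T (T.isSymmetric_adjoint_comp_self.eigenvectorBasis hn i)‖ = T.singularValues i := by
  set v := T.isSymmetric_adjoint_comp_self.eigenvectorBasis hn with hv
  have h1 : ‖T (v i)‖ ^ 2 = T.isSymmetric_adjoint_comp_self.eigenvalues hn i := by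
    have h2 := T.isSymmetric_adjoint_comp_self.apply_eigenvectorBasis hn i
    have h3 : inner ℂ (v i) ((LinearMap.adjoint T ∘ₗ T) (v i)) = ((‖T (v i)‖ ^ 2 : ℝ) : ℂ) := by
      rw [LinearMap.comp_apply, LinearMap.adjoint_inner_right]
      rw [inner_self_eq_norm_sq_to_K]; norm_cast
    rw [← hv] at h2
    rw [h2, inner_smul_right, inner_self_eq_norm_sq_to_K, v.norm_eq_one] at h3
    have h4 : ((T.isSymmetric_adjoint_comp_self.eigenvalues hn i : ℝ) : ℂ)
        = ((‖T (v i)‖ ^ 2 : ℝ) : ℂ) := by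
      rw [← h3]; simp
    exact (Complex.ofReal_injective h4).symm
  rw [LinearMap.singularValues_fin T hn i, ← h1, Real.sqrt_sq (norm_nonneg _)]

lemma trace_le (T U : E →ₗ[ℂ] E) (hU : ∀ x, ‖U x‖ ≤ ‖x‖) {n : ℕ} (hn : Module.finrank ℂ E = n) :
    ‖LinearMap.trace ℂ E (U ∘ₗ T)‖ ≤ ∑ i ∈ Finset.range n, T.singularValues i := by
  set v := T.isSymmetric_adjoint_comp_self.eigenvectorBasis hn with hv
  rw [LinearMap.trace_eq_sum_inner (U ∘ₗ T) v]
  calc ‖∑ i, inner ℂ (v i) ((U ∘ₗ T) (v i))‖ ≤ ∑ i, ‖inner ℂ (v i) ((U ∘ₗ T) (v i))‖ :=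
        norm_sum_le _ _
    _ ≤ ∑ i : Fin n, T.singularValues i := by
        apply Finset.sum_le_sum
        intro i _
        calc ‖inner ℂ (v i) ((U ∘ₗ T) (v i))‖ ≤ ‖v i‖ * ‖(U ∘ₗ T) (v i)‖ := norm_inner_le_norm _ _
          _ ≤ 1 * ‖T (v i)‖ := by
              rw [v.norm_eq_one]
              exact mul_le_mul_of_nonneg_left (hU _) zero_le_one
          _ = T.singularValues i := by rw [one_mul, norm_apply_basis T hn i]
    _ = ∑ i ∈ Finset.range n, T.singularValues i := Fin.sum_univ_eq_sum_range _ _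

lemma sum_sq (T : E →ₗ[ℂ] E) {n : ℕ} (hn : Module.finrank ℂ E = n) :
    ((∑ i ∈ Finset.range n, (T.singularValues i) ^ 2 : ℝ) : ℂ)
      = LinearMap.trace ℂ E (LinearMap.adjoint T ∘ₗ T) := by
  set v := T.isSymmetric_adjoint_comp_self.eigenvectorBasis hn with hv
  rw [LinearMap.trace_eq_sum_inner _ v, ← Fin.sum_univ_eq_sum_range (fun i => (T.singularValues i) ^ 2)]
  rw [Complex.ofReal_sum]
  refine Finset.sum_congr rfl fun i _ => ?_
  have h1 : inner ℂ (v i) ((LinearMap.adjoint T ∘ₗ T) (v i)) = ((‖T (v i)‖ ^ 2 : ℝ) : ℂ) := by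
    rw [LinearMap.comp_apply, LinearMap.adjoint_inner_right, inner_self_eq_norm_sq_to_K]
    norm_cast
  rw [h1, norm_apply_basis T hn i]

/-- If `T* T T* T = c T* T` then every singular value satisfies `σ⁴ = c σ²`. -/
lemma sv_four (T : E →ₗ[ℂ] E) {n : ℕ} (hn : Module.finrank ℂ E = n) (c : ℝ)
    (hT : (LinearMap.adjoint T ∘ₗ T) ∘ₗ (LinearMap.adjoint T ∘ₗ T)
      = (c : ℂ) • (LinearMap.adjoint T ∘ₗ T)) (i : Fin n) :
    (T.singularValues i) ^ 4 = c * (T.singularValues i) ^ 2 := by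
  set v := T.isSymmetric_adjoint_comp_self.eigenvectorBasis hn with hv
  have h2 := T.isSymmetric_adjoint_comp_self.apply_eigenvectorBasis hn i
  rw [← hv, ← LinearMap.sq_singularValues_fin T hn i] at h2
  have h3 := congrArg (fun S : E →ₗ[ℂ] E => S (v i)) hT
  simp only [LinearMap.comp_apply (LinearMap.adjoint T ∘ₗ T), LinearMap.smul_apply] at h3
  rw [h2, map_smul, h2, smul_smul, smul_smul] at h3
  have h4 : v i ≠ 0 := by
    intro h
    have := v.norm_eq_one i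
    rw [h, norm_zero] at this
    exact zero_ne_one this
  have h5 := smul_left_injective ℂ h4 h3
  have h6 : (((T.singularValues i) ^ 2 * (T.singularValues i) ^ 2 : ℝ) : ℂ)
      = ((c * (T.singularValues i) ^ 2 : ℝ) : ℂ) := by
    push_cast at h5 ⊢
    simpa using h5
  have h7 := Complex.ofReal_injective h6
  nlinarith [h7]

end sing

/-- The diagonal sign matrix. -/
def Aq : Matrix (Fin 15) (Fin 15) ℚ := Matrix.of fun i j =>
  if i = j then (if i = 0 then -1 else 1) else 0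

def xq : Fin 15 → ℚ := fun i => if i = 0 then 4/5 else if i = 1 then 3/5 else 0
def yq : Fin 15 → ℚ := fun i => if i = 2 then 1 else 0

/-- `B = x xᵀ - y yᵀ`. -/
def Bq : Matrix (Fin 15) (Fin 15) ℚ := Matrix.of fun i j => xq i * xq j - yq i * yq j

/-- The orthogonal test matrix. -/
def Uq : Matrix (Fin 15) (Fin 15) ℚ := Matrix.of fun i j =>
  if i = 0 ∧ j = 0 then -3/5 else if i = 0 ∧ j = 1 then -4/5 else
  if i = 1 ∧ j = 0 then 4/5 else if i = 1 ∧ j = 1 then -3/5 else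
  if i = 2 ∧ j = 2 then 1 else if i = j then -1 else 0

/-- Rational matrices as complex matrices. -/
noncomputable def toC (M : Matrix (Fin 15) (Fin 15) ℚ) : Matrix (Fin 15) (Fin 15) ℂ := M.map (algebraMap ℚ ℂ)

/-- The rational form of `L(A,B)`. -/
def Lq : Matrix (Fin 15) (Fin 15) ℚ :=
  (-32/25 : ℚ) • (1 : Matrix (Fin 15) (Fin 15) ℚ) - (13 : ℚ) • Bq + (0 : ℚ) • Aq
    - (15 : ℚ) • (Aq * Bq)

lemma f1 : (Aq * Bq).trace = -32/25 := by decide +kernel
lemma f2 : Aq.trace = 13 := by decide +kernel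
lemma f3 : Bq.trace = 0 := by decide +kernel
lemma f4 : (Uq * Lq).trace = 7552/125 := by decide +kernel
lemma f5 : Uqᵀ * Uq = 1 := by decide +kernel
lemma f6 : Aqᵀ * Aq = 1 := by decide +kernel
lemma f7 : (Bqᵀ * Bq) * (Bqᵀ * Bq) = Bqᵀ * Bq := by decide +kernel
lemma f8 : (Bqᵀ * Bq).trace = 2 := by decide +kernel
lemma f9 : Aqᵀ = Aq := by decide +kernel
lemma f10 : Bqᵀ = Bq := by decide +kernel

lemma toC_mul (M N : Matrix (Fin 15) (Fin 15) ℚ) : toC (M * N) = toC M * toC N := by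
  unfold toC; exact Matrix.map_mul

lemma toC_add (M N : Matrix (Fin 15) (Fin 15) ℚ) : toC (M + N) = toC M + toC N := by
  ext i j; simp [toC]

lemma toC_sub (M N : Matrix (Fin 15) (Fin 15) ℚ) : toC (M - N) = toC M - toC N := by
  ext i j; simp [toC]

lemma toC_one : toC 1 = 1 := by
  unfold toC; simp [Matrix.map_one]

lemma toC_smul (c : ℚ) (M : Matrix (Fin 15) (Fin 15) ℚ) : toC (c • M) = (c : ℂ) • toC M := by
  ext i j; simp [toC]

lemma toC_trace (M : Matrix (Fin 15) (Fin 15) ℚ) : (toC M).trace = ((M.trace : ℚ) : ℂ) := by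
  simp [toC, Matrix.trace]

lemma toC_conj (M : Matrix (Fin 15) (Fin 15) ℚ) : (toC M)ᴴ = toC Mᵀ := by
  ext i j; simp [toC, Matrix.conjTranspose_apply]

lemma fr : Module.finrank ℂ (EuclideanSpace ℂ (Fin 15)) = 15 := by simp

lemma adj_comp (M : Matrix (Fin 15) (Fin 15) ℚ) :
    LinearMap.adjoint (Matrix.toEuclideanLin (toC M)) ∘ₗ Matrix.toEuclideanLin (toC M)
      = Matrix.toEuclideanLin (toC (Mᵀ * M)) := by
  rw [toC_mul, ← toC_conj, ← Matrix.toEuclideanLin_conjTranspose_eq_adjoint,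
    Matrix.toLpLin_mul_same]

lemma trace_toE (M : Matrix (Fin 15) (Fin 15) ℂ) :
    LinearMap.trace ℂ (EuclideanSpace ℂ (Fin 15)) (Matrix.toEuclideanLin M) = M.trace := by
  have h := Matrix.trace_toLin_eq M (PiLp.basisFun 2 ℂ (Fin 15))
  exact h

lemma isom (U : Matrix (Fin 15) (Fin 15) ℚ) (hU : Uᵀ * U = 1) (x : EuclideanSpace ℂ (Fin 15)) :
    ‖Matrix.toEuclideanLin (toC U) x‖ = ‖x‖ := by
  have h1 : LinearMap.adjoint (Matrix.toEuclideanLin (toC U)) (Matrix.toEuclideanLin (toC U) x)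
      = x := by
    have := adj_comp U
    rw [hU, toC_one, Matrix.toLpLin_one] at this
    exact congrArg (fun S : EuclideanSpace ℂ (Fin 15) →ₗ[ℂ] EuclideanSpace ℂ (Fin 15) => S x) this
  have h2 : ((‖Matrix.toEuclideanLin (toC U) x‖ ^ 2 : ℝ) : ℂ) = ((‖x‖ ^ 2 : ℝ) : ℂ) := by
    have h3 : inner ℂ (Matrix.toEuclideanLin (toC U) x) (Matrix.toEuclideanLin (toC U) x)
        = inner ℂ x x := by
      rw [← LinearMap.adjoint_inner_right, h1]
    rw [inner_self_eq_norm_sq_to_K, inner_self_eq_norm_sq_to_K] at h3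
    push_cast
    exact h3
  have h4 := Complex.ofReal_injective h2
  exact (sq_eq_sq₀ (norm_nonneg _) (norm_nonneg _)).1 h4

lemma L_val : L (toC Aq) (toC Bq) = toC Lq := by
  rw [L_eq, ← toC_mul, toC_trace, toC_trace, toC_trace, f1, f2, f3]
  unfold Lq
  rw [toC_sub, toC_add, toC_sub, toC_smul, toC_smul, toC_smul, toC_smul, toC_one]
  push_cast
  rfl

lemma R_val : R (toC Bq) = toC ((-15 : ℚ) • Bq) := by
  rw [R_eq, toC_trace, f3, toC_smul]
  push_cast
  simp

/-- **Main result.** The Ky Fan norm inequality fails: there are `n`, Hermitian `A, B` and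
`1 ≤ k ≤ n` with `‖L(A,B)‖_(k) > 2 σ_1(A) ‖R(B)‖_(k)`. -/
theorem result : ∃ (n : ℕ) (A B : Matrix (Fin n) (Fin n) ℂ), A.IsHermitian ∧ B.IsHermitian ∧
    ∃ k : ℕ, 1 ≤ k ∧ k ≤ n ∧ 2 * sv A 0 * kyFan k (R B) < kyFan k (L A B) := by
  refine ⟨15, toC Aq, toC Bq, ?_, ?_, 15, by norm_num, le_refl _, ?_⟩
  · unfold Matrix.IsHermitian; rw [toC_conj, f9]
  · unfold Matrix.IsHermitian; rw [toC_conj, f10]
  -- the first singular value of A is one
  have hA : sv (toC Aq) 0 = 1 := by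
    unfold sv
    have h := norm_apply_basis (Matrix.toEuclideanLin (toC Aq)) fr (0 : Fin 15)
    rw [isom Aq f6, OrthonormalBasis.norm_eq_one] at h
    exact h.symm
  -- the trace norm of R
  have hR : kyFan 15 (R (toC Bq)) = 30 := by
    unfold kyFan sv
    rw [R_val]
    set T := Matrix.toEuclideanLin (toC ((-15 : ℚ) • Bq)) with hT
    have hsq : LinearMap.adjoint T ∘ₗ T = Matrix.toEuclideanLin (toC ((225 : ℚ) • (Bqᵀ * Bq))) := by
      rw [hT, adj_comp]
      congr 2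
      rw [Matrix.transpose_smul, Matrix.smul_mul, Matrix.mul_smul, smul_smul]
      norm_num
    have h4 : ∀ i : Fin 15, (T.singularValues i) ^ 4 = 225 * (T.singularValues i) ^ 2 := by
      intro i
      apply sv_four T fr 225
      rw [hsq, ← Matrix.toLpLin_mul_same, ← toC_mul, ← map_smul]
      congr 1
      rw [Matrix.smul_mul, Matrix.mul_smul, f7, toC_smul, toC_smul]
      norm_num
    have h5 : ∀ i ∈ Finset.range 15, T.singularValues i = (T.singularValues i) ^ 2 / 15 := by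
      intro i hi
      have h6 := h4 ⟨i, Finset.mem_range.1 hi⟩
      simp only at h6
      have h7 := T.singularValues_nonneg i
      have h8 : (T.singularValues i) ^ 2 * ((T.singularValues i - 15) *
          (T.singularValues i + 15)) = 0 := by ring_nf; ring_nf at h6; linarith
      rcases mul_eq_zero.1 h8 with h9 | h9
      · have : T.singularValues i = 0 := by simpa using h9
        rw [this]; norm_num
      · rcases mul_eq_zero.1 h9 with h10 | h10
        · have : T.singularValues i = 15 := by linarith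
          rw [this]; norm_num
        · exfalso; linarith
    rw [Finset.sum_congr rfl h5, ← Finset.sum_div]
    have h6 := sum_sq T fr
    rw [hsq, trace_toE, toC_trace, Matrix.trace_smul, f8] at h6
    have h7 : (∑ i ∈ Finset.range 15, (T.singularValues i) ^ 2 : ℝ) = 450 := by
      apply Complex.ofReal_injective
      rw [h6]
      norm_num
    rw [h7]
    norm_num
  have hL : (7552/125 : ℝ) ≤ kyFan 15 (L (toC Aq) (toC Bq)) := by
    unfold kyFan sv
    rw [L_val]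
    have h := trace_le (Matrix.toEuclideanLin (toC Lq)) (Matrix.toEuclideanLin (toC Uq))
      (fun x => (isom Uq f5 x).le) fr
    rw [← Matrix.toLpLin_mul_same, ← toC_mul, trace_toE, toC_trace, f4] at h
    have h2 : ‖(((7552/125 : ℚ)) : ℂ)‖ = 7552/125 := by
      push_cast
      norm_num
    rw [h2] at h
    exact h
  rw [hA, hR]
  norm_num
  linarith

end Pool.Agent.Results.MP_03f9bf_an.KyFanFails
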